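import Pool.Agent.R858.QD5

/-!
# MP_6276a2_ag: a restricted quasi-diagonal of genus two in `E^4`

Let `E` be the elliptic curve `v² = u (u + 2) (u² - 3)`, let `S` be the curve `y² = x⁶ + 1` of genus two
and let `ω` be a primitive sixth root of unity. For `ε = 1` and `ε = ω` put `t = ε x`; there is a
morphism of degree two

`f_ε : S → E`, `u = t + 1 / t`, `v = y (1 + t) / t²`.

The morphism `(f_1, f_ω) : S → E × E` is a closed embedding: the two functions separate the points
and the tangent vectors. Let the origin `e` of `E` be a point with `v = 0`, so that `-(u, v) = (u, -v)`.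
The curve `(f_1, -f_1, f_ω, -f_ω) : S → E^4` is embedded as a smooth curve of genus two, and the sum of
its coordinates is `e`. Let `L = O_E(D)` be the line bundle of degree two belonging to the
divisor `D` of poles of `u`. All four pull backs of `D` are the divisor `{x = 0} + {x = ∞}`, so `S` is a
restricted quasi-diagonal over `(E, L)`.

Curves are given by their function fields, see `Pool/Agent/Helper395/CS/Defs.lean`: the closed points
are the normalised discrete valuations of the function field over `ℂ`, and a nonconstant morphism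
`S → E` is an embedding of the function field of `E` into that of `S`.
-/

open scoped WithZero Polynomial IntermediateField

namespace Pool.Agent.Results.MP_6276a2_ag.GenusTwoRestricted

open Pool.Agent.Helper395.CS hiding genus map_mul map_inv
open Pool.Agent.Helper395.BC
open Pool.Agent.R858.BN
open Pool.Agent.R858.QD
open Pool.Agent.Y803.FD (Kf xf yf Pf Pf_irreducible hypf ιf phi phi_x phi_y yf_sq xf_transcendental
  adjoinf Kf_isCurve)
open Pool.Agent.W518.SMR (lpole lpole_val)

section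

variable {F K : Type} [Field F] [Algebra ℂ F] [Field K] [Algebra ℂ K] {n : ℕ}

/-- Let `E` and `S` be the curves with function fields `F` and `K`, and let `φ i` describe morphisms
`f_i : S → E`. The morphism `(f_1, …, f_n) : S → E^n` is a closed embedding: it separates the points
and at every point `v` one of the `f_i` is unramified (so that the tangent vectors are separated). -/
structure IsClosedEmbedding (φ : Fin n → F →ₐ[ℂ] K) : Prop where
  injective : ∀ v w : Point K,
    (∀ i, ∃ p : Point F, LiesOver (φ i) v p ∧ LiesOver (φ i) w p) → v = w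
  unramified : ∀ v : Point K, ∃ i, ∃ z : F, v.ord (φ i z) = 1

/-- `M` is the pull back of `L` under the morphism given by `φ`: at every point `v`, with image `p`,
the stalk of `M` is generated by the pull back of the generator of the stalk of `L` at `p`. -/
def IsPullback (φ : F →ₐ[ℂ] K) (L : LineBundle F) (M : LineBundle K) : Prop :=
  ∀ (v : Point K) (p : Point F), LiesOver φ v p →
    v.val (M.frame v : K) = v.val (φ (L.frame p : F))

/-- The line bundles `M^m` and `N^m` are isomorphic, by multiplication with the rational function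
`c`. -/
def PowersIso (m : ℕ) (M N : LineBundle K) : Prop :=
  ∃ c : K, c ≠ 0 ∧ ∀ v : Point K,
    v.val c * v.val (M.frame v : K) ^ m = v.val (N.frame v : K) ^ m

/-- `(f_1, …, f_n) : S → E^n` embeds `S` as a smooth quasi-diagonal over `(E, L)`. -/
structure IsSmoothQuasiDiagonal (φ : Fin n → F →ₐ[ℂ] K) (L : LineBundle F) : Prop where
  embedding : IsClosedEmbedding φ
  torsion : ∃ M : Fin n → LineBundle K, (∀ i, IsPullback (φ i) L (M i)) ∧
    ∀ i j, ∃ m : ℕ, 0 < m ∧ PowersIso m (M i) (M j)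

open Classical in
/-- The sum `∑_i f_i(v)`, in the group `E` with origin `e`, is a constant `s`: for all `v` the divisor
`∑_i (f_i(v)) - (s) - (n - 1) (e)` is the divisor of a rational function. -/
def IsRestricted (φ : Fin n → F →ₐ[ℂ] K) (e : Point F) : Prop :=
  ∃ s : Point F, ∀ v : Point K, ∃ c : F, c ≠ 0 ∧ ∀ p : Point F,
    p.ord c = (Nat.card {i : Fin n // LiesOver (φ i) v p} : ℤ) - (if p = s then 1 else 0)
      - (if p = e then (n : ℤ) - 1 else 0)

theorem isPullback_lpole {φ : F →ₐ[ℂ] K} (hF : IsCurve F) (hK : IsCurve K) (u : Fˣ) (U : Kˣ)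
    (hu : φ u = U) : IsPullback φ (lpole hF u) (lpole hK U) := by
  intro v p hvp
  have hM : v.val ((lpole hK U).frame v : K) = max 1 (v.val (U : K)) := lpole_val _ _ _
  have hL : p.val ((lpole hF u).frame p : F) = max 1 (p.val (u : F)) := lpole_val _ _ _
  rw [hM]
  have hcomp : ∀ a b : F, a ≠ 0 → b ≠ 0 → p.val a = p.val b → v.val (φ a) = v.val (φ b) := by
    intro a b ha hb hab
    have hb' : v.val (φ b) ≠ 0 := v.val_ne_zero ((map_ne_zero _).2 hb)
    have ha' : v.val (φ a) ≠ 0 := v.val_ne_zero ((map_ne_zero _).2 ha)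
    have h2 := (hvp (a / b)).2 (by rw [map_div₀, hab, div_self (p.val_ne_zero hb)])
    have h3 := (hvp (b / a)).2 (by rw [map_div₀, hab, div_self (p.val_ne_zero hb)])
    rw [map_div₀, map_div₀] at h2 h3
    exact le_antisymm ((div_le_one₀ (zero_lt_iff.2 hb')).1 h2)
      ((div_le_one₀ (zero_lt_iff.2 ha')).1 h3)
  rcases le_or_gt (p.val (u : F)) 1 with h2 | h2
  · rw [max_eq_left h2] at hL
    have h3 := hcomp _ 1 (Units.ne_zero _) one_ne_zero (by rw [hL, map_one])
    rw [h3, map_one, map_one]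
    apply max_eq_left
    rw [← hu]
    exact (hvp u).2 h2
  · rw [max_eq_right h2.le] at hL
    have h3 := hcomp _ u (Units.ne_zero _) (Units.ne_zero _) hL
    rw [h3, hu]
    apply max_eq_right
    by_contra hcon
    rw [not_le, ← hu] at hcon
    exact absurd ((hvp u).1 hcon.le) (not_le.2 h2)

end

/-- There are curves `E` of genus one with origin `e` and `S` of genus two, a line bundle `L` of degree
two on `E` and a smooth restricted quasi-diagonal over `(E, L)` in `E^4` isomorphic to `S`. One can take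
`E : v² = (u + 2) (u³ - 3 u)` and `S : y² = x⁶ + 1`. The first clause says that every point of the source
of a morphism of curves has exactly one image. -/
theorem result :
    (∀ (F K : Type) [Field F] [Algebra ℂ F] [Field K] [Algebra ℂ K] (φ : F →ₐ[ℂ] K),
      IsCurve F → IsCurve K → ∀ v : Point K, ∃! p : Point F, LiesOver φ v p) ∧
    ∃ (F K : Type) (_ : Field F) (_ : Algebra ℂ F) (_ : Field K) (_ : Algebra ℂ K),
      IsCurve F ∧ genus F = 1 ∧ IsCurve K ∧ genus K = 2 ∧
      (∃ u v : F, IntermediateField.adjoin ℂ {u, v} = ⊤ ∧ v ^ 2 = (u + 2) * (u ^ 3 - 3 * u)) ∧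
      (∃ x y : K, IntermediateField.adjoin ℂ {x, y} = ⊤ ∧ y ^ 2 = x ^ 6 + 1) ∧
      ∃ (e : Point F) (L : LineBundle F) (φ : Fin 4 → F →ₐ[ℂ] K), L.degree = 2 ∧
        IsSmoothQuasiDiagonal φ L ∧ IsRestricted φ e := by
  classical
  refine ⟨fun F K _ _ _ _ φ hF hK v => existsUnique_image hF hK φ v, ?_⟩
  have h6 : Fact (Irreducible (Pf f6)) :=
    ⟨Pf_irreducible f6_sep (by rw [f6_natDegree]; norm_num)⟩
  have h4 : Fact (Irreducible (Pf f4)) :=
    ⟨Pf_irreducible f4_sep (by rw [f4_natDegree]; norm_num)⟩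
  have H := hypf (f := f6) f6_sep
  have H4 := hypf (f := f4) f4_sep
  obtain ⟨ω, hω3, hω2⟩ : ∃ ω : ℂ, ω ^ 3 = -1 ∧ ω ^ 2 ≠ 1 := by
    have h1 := Complex.isPrimitiveRoot_exp 6 (by norm_num)
    set ζ := Complex.exp (2 * Real.pi * Complex.I / ((6 : ℕ) : ℂ))
    refine ⟨ζ, ?_, fun h => ?_⟩
    · have h2 : (ζ ^ 3 - 1) * (ζ ^ 3 + 1) = 0 := by
        have := h1.pow_eq_one
        linear_combination this
      rcases mul_eq_zero.1 h2 with h3 | h3
      · have := h1.dvd_of_pow_eq_one 3 (by linear_combination h3)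
        omega
      · linear_combination h3
    · have := h1.dvd_of_pow_eq_one 2 h
      omega
  have hω6 : ω ^ 6 = 1 := by
    have : ω ^ 6 = (ω ^ 3) ^ 2 := by ring
    rw [this, hω3]
    norm_num
  have hω0 : ω ≠ 0 := by
    rintro rfl
    norm_num at hω3
  set x := xf f6 with hx
  set y := yf f6 with hy
  set u := xf f4 with hu
  have hu0 : u ≠ 0 := H4.x_ne
  have hψ : ∀ ε : ℂ, ε = 1 ∨ ε = ω → ∃ ψ : Kf f4 →ₐ[ℂ] Kf f6, ψ u = Uf x ε ∧
      ψ (yf f4) = Vf x y ε := by
    intro ε hε
    have h0 : ε ≠ 0 := by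
      rcases hε with rfl | rfl
      · exact one_ne_zero
      · exact hω0
    have h1 : ε ^ 6 = 1 := by
      rcases hε with rfl | rfl
      · exact one_pow 6
      · exact hω6
    exact ⟨phi (x := Uf x ε) (y := Vf x y ε) (Uf_transc H h0) (Vf_sq H h1), phi_x _ _, phi_y _ _⟩
  obtain ⟨ψ0, hψ0u, hψ0v⟩ := hψ 1 (Or.inl rfl)
  obtain ⟨ψ1, hψ1u, hψ1v⟩ := hψ ω (Or.inr rfl)
  have hUne : ∀ ε : ℂ, ε ≠ 0 → Uf x ε ≠ 0 := fun ε hε h0 => by
    have := Uf_transc H hε
    rw [h0] at this
    exact this isAlgebraic_zero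
  let L : LineBundle (Kf f4) := lpole H4.curve (Units.mk0 u hu0)
  let φ : Fin 4 → (Kf f4 →ₐ[ℂ] Kf f6) :=
    ![ψ0, ψ0.comp (ιf f4 : Kf f4 →ₐ[ℂ] Kf f4), ψ1, ψ1.comp (ιf f4 : Kf f4 →ₐ[ℂ] Kf f4)]
  let U : Fin 4 → ℂ := ![1, 1, ω, ω]
  have hU0 : ∀ i, U i ≠ 0 := by
    intro i
    fin_cases i
    · exact one_ne_zero
    · exact one_ne_zero
    · exact hω0
    · exact hω0
  have hφu : ∀ i, φ i u = Uf x (U i) := by
    intro i
    fin_cases i
    · exact hψ0u
    · change ψ0 (ιf f4 u) = Uf x 1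
      rw [H4.inv_x, hψ0u]
    · exact hψ1u
    · change ψ1 (ιf f4 u) = Uf x ω
      rw [H4.inv_x, hψ1u]
  -- the origin
  obtain ⟨e, he⟩ := exists_point H4.curve H4.trans 0
  have he' : Rs e u 0 := he
  have hev : Rs e (yf f4) 0 := by
    have h1 : e.val ((yf f4) ^ 2) < 1 := by
      rw [H4.eq]
      rw [aeval_lt_iff he]
      simp [f4]
    rw [map_pow] at h1
    have h2 : e.val (yf f4) < 1 := by
      by_contra h3
      exact absurd h1 (not_lt.2 (one_le_pow_of_one_le' (not_lt.1 h3) 2))
    change e.val (yf f4 - algebraMap ℂ _ 0) < 1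
    rwa [map_zero, sub_zero]
  have hee : e.comap (ιf f4) = e := by
    have h1 := rs_comap H4 he' hev
    exact point_eq H4 h1.1 (by simpa using h1.2) he' hev
  refine ⟨Kf f4, Kf f6, inferInstance, inferInstance, inferInstance, inferInstance, H4.curve,
    hyp_genus H4 le_rfl f4_natDegree, H.curve, hyp_genus H (by norm_num) f6_natDegree,
    ⟨u, yf f4, adjoinf (f := f4), by rw [H4.eq, aeval_f4]⟩,
    ⟨x, y, adjoinf (f := f6), by rw [H.eq, aeval_f6]⟩, e, L, φ, ?_, ⟨⟨?_, ?_⟩,
    fun i => lpole H.curve (Units.mk0 (Uf x (U i)) (hUne _ (hU0 i))), fun i => ?_, ?_⟩, e, ?_⟩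
  · change (lpole H4.curve (Units.mk0 u hu0)).degree = 2
    rw [Pool.Agent.W518.EG.lpole_degree]
    exact H4.degP_x
  · intro v w h
    refine inj6 H hω3 hω2 fun ε hε α => ?_
    obtain ⟨ψ, ⟨p, hv, hw⟩, e1, e2⟩ : ∃ ψ : Kf f4 →ₐ[ℂ] Kf f6,
        (∃ p : Point (Kf f4), LiesOver ψ v p ∧ LiesOver ψ w p) ∧ ψ u = Uf x ε ∧
          ψ (yf f4) = Vf x y ε := by
      rcases hε with rfl | rfl
      · exact ⟨ψ0, h 0, hψ0u, hψ0v⟩
      · exact ⟨ψ1, h 2, hψ1u, hψ1v⟩
    refine ⟨fun h1 => ?_, fun h1 => ?_, fun h1 => ?_, fun h1 => ?_⟩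
    · rw [← e1] at h1 ⊢
      exact LiesOver.rs hv hw h1
    · rw [← e2] at h1 ⊢
      exact LiesOver.rs hv hw h1
    · rw [← e1, ← map_inv₀] at h1 ⊢
      exact LiesOver.rs hv hw h1
    · rw [← e1, ← e2, ← map_inv₀, ← map_pow, ← map_mul] at h1 ⊢
      exact LiesOver.rs hv hw h1
  · intro v
    obtain ⟨ε, hε, h⟩ := imm6 H hω0 hω2 v
    obtain ⟨i, e1, e2⟩ : ∃ i, φ i u = Uf x ε ∧ φ i (yf f4) = Vf x y ε := by
      rcases hε with rfl | rfl
      · exact ⟨0, hψ0u, hψ0v⟩
      · exact ⟨2, hψ1u, hψ1v⟩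
    refine ⟨i, ?_⟩
    rcases h with ⟨α, h⟩ | h | h
    · refine ⟨u - algebraMap ℂ _ α, ?_⟩
      rw [map_sub, AlgHom.commutes, e1]
      exact h
    · exact ⟨yf f4, by rw [e2]; exact h⟩
    · exact ⟨u⁻¹, by rw [map_inv₀, e1]; exact h⟩
  · exact isPullback_lpole H4.curve H.curve _ _ (hφu i)
  · intro i j
    refine ⟨1, one_pos, 1, one_ne_zero, fun v => ?_⟩
    rw [pow_one, pow_one, lpole_val, lpole_val, map_one, one_mul, Units.val_mk0, Units.val_mk0,
      max_val H v (hU0 i), max_val H v (hU0 j)]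
  · intro v
    obtain ⟨P0, hP0, -⟩ := existsUnique_image H4.curve H.curve ψ0 v
    obtain ⟨P1, hP1, -⟩ := existsUnique_image H4.curve H.curve ψ1 v
    let Q : Fin 4 → Point (Kf f4) := ![P0, P0.comap (ιf f4), P1, P1.comap (ιf f4)]
    have hQ : ∀ i, LiesOver (φ i) v (Q i) := by
      intro i
      fin_cases i
      · exact hP0
      · exact hP0.comap (ιf f4)
      · exact hP1
      · exact hP1.comap (ιf f4)
    obtain ⟨g0, hg0, hg0'⟩ := exists_pair H4 (m := 2) f4_natDegree P0
    obtain ⟨g1, hg1, hg1'⟩ := exists_pair H4 (m := 2) f4_natDegree P1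
    obtain ⟨ge, hge, hge'⟩ := exists_pair H4 (m := 2) f4_natDegree e
    refine ⟨g0 * g1 * (ge ^ 2)⁻¹, mul_ne_zero (mul_ne_zero hg0 hg1)
      (inv_ne_zero (pow_ne_zero 2 hge)), fun p => ?_⟩
    have hcard : (Nat.card {i : Fin 4 // LiesOver (φ i) v p} : ℤ) =
        ∑ i : Fin 4, if Q i = p then 1 else 0 := by
      have h1 : ∀ i, LiesOver (φ i) v p ↔ Q i = p := by
        intro i
        constructor
        · intro h
          exact (hQ i).unique h
        · rintro rfl
          exact hQ i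
      rw [Nat.card_eq_fintype_card, Fintype.card_subtype, Finset.sum_boole]
      congr 2
      ext i
      simp [h1]
    rw [hcard, Fin.sum_univ_four, p.ord_mul (mul_ne_zero hg0 hg1)
      (inv_ne_zero (pow_ne_zero 2 hge)), p.ord_mul hg0 hg1, p.ord_inv, p.ord_pow, hg0', hg1', hge',
      hee]
    change _ = (if P0 = p then 1 else 0) + (if P0.comap (ιf f4) = p then 1 else 0) +
      (if P1 = p then 1 else 0) + (if P1.comap (ιf f4) = p then 1 else 0) -
      (if p = e then 1 else 0) - (if p = e then ((4 : ℕ) : ℤ) - 1 else 0)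
    have h5 : (if e = p then (1 : ℤ) else 0) = if p = e then 1 else 0 := by
      congr 1
      exact propext eq_comm
    have h6 : (if p = e then ((4 : ℕ) : ℤ) - 1 else 0) = 3 * if p = e then (1 : ℤ) else 0 := by
      split_ifs <;> norm_num
    rw [h5, h6]
    push_cast
    ring

end Pool.Agent.Results.MP_6276a2_ag.GenusTwoRestricted
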